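import Mathlib

set_option autoImplicit false

namespace Pool.Agent.K6.H30.RS

open Set Filter

/-- The thinning lemma. -/
theorem core {α β : Type} (R : β → α → Prop) (X : Set α) (hX : X.Infinite)
    (hfin : ∀ m ∈ X, {y | R y m}.Finite) (Y : Set β) (hY : Y.Finite) (R' : β → α → Prop) :
    ∃ H ⊆ X, H.Infinite ∧
      (∀ y, ∀ a ∈ H, ∀ b ∈ H, a ≠ b → R y a → R y b → {h | h ∈ H ∧ R y h}.Infinite) ∧
      ∀ y ∈ Y, (∀ h ∈ H, R' y h) ∨ (∀ h ∈ H, ¬ R' y h) := by
  have : Infinite X := hX.to_subtype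
  set U : Ultrafilter X := Filter.hyperfilter X with hU
  have hdec : ∀ p : X → Prop, ∀ᶠ m : X in (U : Filter X), ((∀ᶠ m' : X in (U : Filter X), p m') ↔ p m) := by
    intro p
    by_cases hp : ∀ᶠ m' : X in (U : Filter X), p m'
    · filter_upwards [hp] with m hm
      exact ⟨fun _ => hm, fun _ => hp⟩
    · have : ∀ᶠ m' : X in (U : Filter X), ¬ p m' := Ultrafilter.eventually_not.mpr hp
      filter_upwards [this] with m hm
      exact ⟨fun h => absurd h hp, fun h => absurd h hm⟩
  obtain ⟨f, hf1, hf2⟩ := exists_seq_of_forall_finset_exists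
    (fun m : X => ∀ y ∈ Y, ((∀ᶠ m' : X in (U : Filter X), R' y m') ↔ R' y m))
    (fun m m' : X => m' ≠ m ∧ ∀ y, R y m → ((∀ᶠ m'' : X in (U : Filter X), R y m'') ↔ R y m'))
    (by
      intro s _
      have h1 : ∀ᶠ m : X in (U : Filter X), ∀ y ∈ Y, ((∀ᶠ m' : X in (U : Filter X), R' y m') ↔ R' y m) :=
        (Filter.eventually_all_finite hY).mpr fun y _ => hdec fun m => R' y m
      have h2 : ∀ᶠ m' : X in (U : Filter X), ∀ m ∈ s, (m' ≠ m ∧
          ∀ y, R y m → ((∀ᶠ m'' : X in (U : Filter X), R y m'') ↔ R y m')) := by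
        refine (Filter.eventually_all_finset s).mpr fun m _ => ?_
        have h3 : ∀ᶠ m' : X in (U : Filter X), m' ≠ m := by
          have : ({m} : Set X)ᶜ ∈ (U : Filter X) :=
            Filter.compl_mem_hyperfilter_of_finite (Set.finite_singleton m)
          exact this
        have h4 : ∀ᶠ m' : X in (U : Filter X), ∀ y ∈ {y | R y m},
            ((∀ᶠ m'' : X in (U : Filter X), R y m'') ↔ R y m') :=
          (Filter.eventually_all_finite (hfin m m.2)).mpr fun y _ => hdec fun m => R y m
        filter_upwards [h3, h4] with m' h5 h6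
        exact ⟨h5, fun y hy => h6 y hy⟩
      exact (h1.and h2).exists)
  have hinj : Function.Injective f := by
    intro i j hij
    rcases lt_trichotomy i j with h | h | h
    · exact absurd hij.symm (hf2 i j h).1
    · exact h
    · exact absurd hij (hf2 j i h).1
  refine ⟨Set.range fun n => (f n : α), ?_, ?_, ?_, ?_⟩
  · rintro _ ⟨n, rfl⟩
    exact (f n).2
  · exact Set.infinite_range_of_injective (Subtype.val_injective.comp hinj)
  · rintro y _ ⟨i, rfl⟩ _ ⟨j, rfl⟩ hne hi hj
    have key : ∀ i j, i < j → R y (f i) → R y (f j) →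
        {h | h ∈ (Set.range fun n => (f n : α)) ∧ R y h}.Infinite := by
      intro i j hij hi hj
      have hbig : ∀ᶠ m'' : X in (U : Filter X), R y m'' := ((hf2 i j hij).2 y hi).mpr hj
      have hall : ∀ k, i < k → R y (f k) := fun k hk => ((hf2 i k hk).2 y hi).mp hbig
      refine Set.Infinite.mono (s := (fun n => (f n : α)) '' Set.Ioi i) ?_ ?_
      · rintro _ ⟨k, hk, rfl⟩
        exact ⟨⟨k, rfl⟩, hall k hk⟩
      · exact (Set.Ioi_infinite i).image (Subtype.val_injective.comp hinj).injOn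
    rcases lt_trichotomy i j with h | h | h
    · exact key i j h hi hj
    · subst h
      exact absurd rfl hne
    · exact key j i h hj hi
  · intro y hy
    by_cases hb : ∀ᶠ m' : X in (U : Filter X), R' y m'
    · left
      rintro _ ⟨n, rfl⟩
      exact (hf1 n y hy).mp hb
    · right
      rintro _ ⟨n, rfl⟩ h
      exact hb ((hf1 n y hy).mpr h)

/-- `0`, `1` or infinitely many. -/
def Few {α : Type} (S : Set α) : Prop := S.encard = 0 ∨ S.encard = 1 ∨ S.Infinite

theorem few_of {α : Type} (S : Set α) (h : ∀ a ∈ S, ∀ b ∈ S, a ≠ b → S.Infinite) : Few S := by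
  by_cases h1 : S.encard ≤ 1
  · rcases Set.encard_le_one_iff_eq.mp h1 with h2 | ⟨x, hx⟩
    · left
      simp [h2]
    · right; left
      simp [hx]
  · push Not at h1
    obtain ⟨a, b, ha, hb, hab⟩ := Set.one_lt_encard_iff.mp h1
    exact Or.inr (Or.inr (h a ha b hb hab))

end Pool.Agent.K6.H30.RS
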