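import Pool.Agent.K6.H30.RS.Main

set_option autoImplicit false

namespace Pool.Agent.K6.H30.RS

open Set Filter

section

variable {P : Type} [PartialOrder P]

theorem iio_total (hI : ∀ a b c d : P, a < b → c < d → a < d ∨ c < b) (x y : P) :
    Set.Iio x ⊆ Set.Iio y ∨ Set.Iio y ⊆ Set.Iio x := by
  by_contra hcon
  push Not at hcon
  obtain ⟨h1, h2⟩ := hcon
  obtain ⟨a, ha, ha'⟩ := Set.not_subset.mp h1
  obtain ⟨c, hc, hc'⟩ := Set.not_subset.mp h2
  rcases hI a x c y ha hc with h | h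
  · exact ha' h
  · exact hc' h

theorem ioi_total (hI : ∀ a b c d : P, a < b → c < d → a < d ∨ c < b) (x y : P) :
    Set.Ioi x ⊆ Set.Ioi y ∨ Set.Ioi y ⊆ Set.Ioi x := by
  by_contra hcon
  push Not at hcon
  obtain ⟨h1, h2⟩ := hcon
  obtain ⟨a, ha, ha'⟩ := Set.not_subset.mp h1
  obtain ⟨c, hc, hc'⟩ := Set.not_subset.mp h2
  rcases hI x a y c ha hc with h | h
  · exact hc' h
  · exact ha' h

/-- Nested intervals. -/
theorem good_seq (w : ℕ → P) (hA : ∀ i j, i ≠ j → ¬ w i ≤ w j)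
    (hD : ∀ m n, m < n → Set.Iio (w m) ⊆ Set.Iio (w n))
    (hU : ∀ m n, m < n → Set.Ioi (w m) ⊆ Set.Ioi (w n)) : Good P := by
  have hinj : Function.Injective w := by
    intro i j hij
    by_contra hne
    exact hA i j hne hij.le
  refine ⟨Set.range w, Set.infinite_range_of_injective hinj, ?_, fun x => ?_⟩
  · rintro _ ⟨i, rfl⟩ _ ⟨j, rfl⟩ hne
    exact hA i j fun h => hne (by rw [h])
  apply few_of
  rintro _ ⟨⟨i, rfl⟩, hxi⟩ _ ⟨⟨j, rfl⟩, hxj⟩ hne
  have hij : i ≠ j := fun h => hne (by rw [h])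
  have hxne : x ≠ w i := by
    rintro rfl
    rcases hxj with h | h
    · exact hA i j hij h
    · exact hA j i hij.symm h
  have hsub : w '' Set.Ioi i ⊆ {h | h ∈ Set.range w ∧ (x ≤ h ∨ h ≤ x)} := by
    rintro _ ⟨n, hn, rfl⟩
    refine ⟨⟨n, rfl⟩, ?_⟩
    rcases hxi with h | h
    · have h1 : x ∈ Set.Iio (w i) := lt_of_le_of_ne h hxne
      exact Or.inl (le_of_lt (hD i n hn h1))
    · have h1 : x ∈ Set.Ioi (w i) := lt_of_le_of_ne h hxne.symm
      exact Or.inr (le_of_lt (hU i n hn h1))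
  exact ((Set.Ioi_infinite i).image hinj.injOn).mono hsub

theorem no_decr (hP : FinLen P) (f : ℕ → P) (hf : ∀ n, f (n + 1) < f n) : False := by
  obtain ⟨_, ⟨n, rfl⟩, hm⟩ := (wf_lt hP).has_min (Set.range f) ⟨f 0, 0, rfl⟩
  exact hm (f (n + 1)) ⟨n + 1, rfl⟩ (hf n)

theorem no_incr (hP : FinLen P) (f : ℕ → P) (hf : ∀ n, f n < f (n + 1)) : False := by
  obtain ⟨_, ⟨n, rfl⟩, hm⟩ := (wf_gt hP).has_min (Set.range f) ⟨f 0, 0, rfl⟩
  exact hm (f (n + 1)) ⟨n + 1, rfl⟩ (hf n)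

theorem antichain_subseq (hP : FinLen P) (v : ℕ → P) (hv : ∀ m n, m < n → v m ≠ v n) :
    ∃ g : ℕ → ℕ, StrictMono g ∧ ∀ i j, i ≠ j → ¬ v (g i) ≤ v (g j) := by
  obtain ⟨g, hg⟩ := exists_increasing_or_nonincreasing_subseq (fun a b : P => a < b) v
  rcases hg with hg | hg
  · exact (no_incr hP (fun n => v (g n)) fun n => hg n (n + 1) (Nat.lt_succ_self n)).elim
  obtain ⟨g', hg'⟩ := exists_increasing_or_nonincreasing_subseq (fun a b : P => b < a)
    (fun n => v (g n))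
  rcases hg' with hg' | hg'
  · exact (no_decr hP (fun n => v (g (g' n))) fun n => hg' n (n + 1) (Nat.lt_succ_self n)).elim
  refine ⟨fun n => g (g' n), g.strictMono.comp g'.strictMono, fun i j hij hle => ?_⟩
  have hmono : StrictMono fun n => g (g' n) := g.strictMono.comp g'.strictMono
  rcases lt_or_gt_of_ne hij with h | h
  · have h1 := hv _ _ (hmono h)
    exact hg _ _ (g'.strictMono h) (lt_of_le_of_ne hle h1)
  · have h1 := hv _ _ (hmono h)
    exact hg' _ _ h (lt_of_le_of_ne hle h1.symm)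

theorem extract_down (hI : ∀ a b c d : P, a < b → c < d → a < d ∨ c < b) (u : ℕ → P)
    (h : ∀ m n, m < n → ¬ Set.Iio (u m) ⊆ Set.Iio (u n)) :
    ∃ v : ℕ → P, (∀ m, v m < u 0) ∧ (∀ m n, m < n → v m ≠ v n) ∧
      ∀ m n, m < n → Set.Ioi (v m) ⊆ Set.Ioi (v n) := by
  have h1 : ∀ m n, m < n → Set.Iio (u n) ⊆ Set.Iio (u m) := fun m n hmn =>
    (iio_total hI (u m) (u n)).resolve_left (h m n hmn)
  have h2 : ∀ m, ∃ v, v < u m ∧ ¬ v < u (m + 1) := fun m => by
    obtain ⟨v, hv1, hv2⟩ := Set.not_subset.mp (h m (m + 1) (Nat.lt_succ_self m))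
    exact ⟨v, hv1, hv2⟩
  choose v hv1 hv2 using h2
  have h3 : ∀ m n, m < n → ¬ v m < u n := by
    intro m n hmn hlt
    rcases Nat.lt_or_ge (m + 1) n with h4 | h4
    · exact hv2 m (h1 _ _ h4 hlt)
    · have : n = m + 1 := by omega
      subst this
      exact hv2 m hlt
  refine ⟨v, ?_, ?_, ?_⟩
  · intro m
    rcases Nat.eq_zero_or_pos m with rfl | hm
    · exact hv1 0
    · exact h1 0 m hm (hv1 m)
  · intro m n hmn heq
    exact h3 m n hmn (heq ▸ hv1 n)
  · intro m n hmn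
    refine (ioi_total hI (v m) (v n)).resolve_right fun h4 => ?_
    exact h3 m n hmn (h4 (hv1 n))

theorem extract_up (hI : ∀ a b c d : P, a < b → c < d → a < d ∨ c < b) (u : ℕ → P)
    (h : ∀ m n, m < n → ¬ Set.Ioi (u m) ⊆ Set.Ioi (u n)) :
    ∃ v : ℕ → P, (∀ m, u 0 < v m) ∧ (∀ m n, m < n → v m ≠ v n) ∧
      ∀ m n, m < n → Set.Iio (v m) ⊆ Set.Iio (v n) := by
  have h1 : ∀ m n, m < n → Set.Ioi (u n) ⊆ Set.Ioi (u m) := fun m n hmn =>
    (ioi_total hI (u m) (u n)).resolve_left (h m n hmn)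
  have h2 : ∀ m, ∃ v, u m < v ∧ ¬ u (m + 1) < v := fun m => by
    obtain ⟨v, hv1, hv2⟩ := Set.not_subset.mp (h m (m + 1) (Nat.lt_succ_self m))
    exact ⟨v, hv1, hv2⟩
  choose v hv1 hv2 using h2
  have h3 : ∀ m n, m < n → ¬ u n < v m := by
    intro m n hmn hlt
    rcases Nat.lt_or_ge (m + 1) n with h4 | h4
    · exact hv2 m (h1 _ _ h4 hlt)
    · have : n = m + 1 := by omega
      subst this
      exact hv2 m hlt
  refine ⟨v, ?_, ?_, ?_⟩
  · intro m
    rcases Nat.eq_zero_or_pos m with rfl | hm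
    · exact hv1 0
    · exact h1 0 m hm (hv1 m)
  · intro m n hmn heq
    exact h3 m n hmn (heq ▸ hv1 n)
  · intro m n hmn
    refine (iio_total hI (v m) (v n)).resolve_right fun h4 => ?_
    exact h3 m n hmn (h4 (hv1 n))

theorem claim_down (hP : FinLen P) (hI : ∀ a b c d : P, a < b → c < d → a < d ∨ c < b) (x : P) :
    ∀ w : ℕ → P, (∀ i j, i ≠ j → ¬ w i ≤ w j) → (∀ i, w i < x) →
      (∀ m n, m < n → Set.Ioi (w m) ⊆ Set.Ioi (w n)) → Good P := by
  induction x using (wf_lt hP).induction with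
  | _ x ih =>
    intro w hA hx hU
    have htr : IsTrans P (fun a b : P => Set.Iio a ⊆ Set.Iio b) :=
      ⟨fun _ _ _ h1 h2 => h1.trans h2⟩
    obtain ⟨g, hg⟩ := exists_increasing_or_nonincreasing_subseq
      (fun a b : P => Set.Iio a ⊆ Set.Iio b) w
    rcases hg with hg | hg
    · exact good_seq (fun n => w (g n))
        (fun i j hij => hA _ _ fun h => hij (g.injective h)) hg
        (fun m n hmn => hU _ _ (g.strictMono hmn))
    · obtain ⟨v, hv1, hv2, hv3⟩ := extract_down hI (fun n => w (g n)) hg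
      obtain ⟨g', hg'1, hg'2⟩ := antichain_subseq hP v hv2
      exact ih (w (g 0)) (hx _) (fun n => v (g' n)) hg'2 (fun i => hv1 _)
        (fun m n hmn => hv3 _ _ (hg'1 hmn))

theorem claim_up (hP : FinLen P) (hI : ∀ a b c d : P, a < b → c < d → a < d ∨ c < b) (x : P) :
    ∀ w : ℕ → P, (∀ i j, i ≠ j → ¬ w i ≤ w j) → (∀ i, x < w i) →
      (∀ m n, m < n → Set.Iio (w m) ⊆ Set.Iio (w n)) → Good P := by
  induction x using (wf_gt hP).induction with
  | _ x ih =>
    intro w hA hx hU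
    have htr : IsTrans P (fun a b : P => Set.Ioi a ⊆ Set.Ioi b) :=
      ⟨fun _ _ _ h1 h2 => h1.trans h2⟩
    obtain ⟨g, hg⟩ := exists_increasing_or_nonincreasing_subseq
      (fun a b : P => Set.Ioi a ⊆ Set.Ioi b) w
    rcases hg with hg | hg
    · exact good_seq (fun n => w (g n))
        (fun i j hij => hA _ _ fun h => hij (g.injective h))
        (fun m n hmn => hU _ _ (g.strictMono hmn)) hg
    · obtain ⟨v, hv1, hv2, hv3⟩ := extract_up hI (fun n => w (g n)) hg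
      obtain ⟨g', hg'1, hg'2⟩ := antichain_subseq hP v hv2
      exact ih (w (g 0)) (hx _) (fun n => v (g' n)) hg'2 (fun i => hv1 _)
        (fun m n hmn => hv3 _ _ (hg'1 hmn))

/-- Interval orders. -/
theorem good_of_interval (hP : FinLen P) (hinf : Infinite P)
    (hI : ∀ a b c d : P, a < b → c < d → a < d ∨ c < b) : Good P := by
  obtain ⟨g, hg1, hg2⟩ := antichain_subseq hP (fun n => Infinite.natEmbedding P n)
    (fun m n hmn h => hmn.ne ((Infinite.natEmbedding P).injective h))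
  set w : ℕ → P := fun n => Infinite.natEmbedding P (g n) with hw
  have htr1 : IsTrans P (fun a b : P => Set.Iio a ⊆ Set.Iio b) :=
    ⟨fun _ _ _ h1 h2 => h1.trans h2⟩
  have htr2 : IsTrans P (fun a b : P => Set.Ioi a ⊆ Set.Ioi b) :=
    ⟨fun _ _ _ h1 h2 => h1.trans h2⟩
  obtain ⟨a, ha⟩ := exists_increasing_or_nonincreasing_subseq
    (fun a b : P => Set.Iio a ⊆ Set.Iio b) w
  rcases ha with ha | ha
  · obtain ⟨b, hb⟩ := exists_increasing_or_nonincreasing_subseq
      (fun a b : P => Set.Ioi a ⊆ Set.Ioi b) (fun n => w (a n))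
    rcases hb with hb | hb
    · exact good_seq (fun n => w (a (b n)))
        (fun i j hij => hg2 _ _ fun h => hij (b.injective (a.injective h)))
        (fun m n hmn => ha _ _ (b.strictMono hmn)) hb
    · obtain ⟨v, hv1, hv2, hv3⟩ := extract_up hI (fun n => w (a (b n))) hb
      obtain ⟨g', hg'1, hg'2⟩ := antichain_subseq hP v hv2
      exact claim_up hP hI _ (fun n => v (g' n)) hg'2 (fun i => hv1 _)
        (fun m n hmn => hv3 _ _ (hg'1 hmn))
  · obtain ⟨v, hv1, hv2, hv3⟩ := extract_down hI (fun n => w (a n)) ha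
    obtain ⟨g', hg'1, hg'2⟩ := antichain_subseq hP v hv2
    exact claim_down hP hI _ (fun n => v (g' n)) hg'2 (fun i => hv1 _)
      (fun m n hmn => hv3 _ _ (hg'1 hmn))

end

end Pool.Agent.K6.H30.RS
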