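import Pool.Agent.K6.H30.RS.Core

set_option autoImplicit false

namespace Pool.Agent.K6.H30.RS

open Set Filter

/-- `P` has finite length. -/
def FinLen (P : Type) [PartialOrder P] : Prop :=
  ∃ n : ℕ, ∀ s : Set P, IsChain (· ≤ ·) s → s.encard ≤ (n : ℕ∞)

/-- The conclusion asked for. -/
def Good (P : Type) [PartialOrder P] : Prop :=
  ∃ H : Set P, H.Infinite ∧ IsAntichain (· ≤ ·) H ∧
    ∀ x : P,
      ({h | h ∈ H ∧ (x ≤ h ∨ h ≤ x)}.encard = 0 ∨
       {h | h ∈ H ∧ (x ≤ h ∨ h ≤ x)}.encard = 1 ∨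
       {h | h ∈ H ∧ (x ≤ h ∨ h ≤ x)}.Infinite)

/-- `y` is bad for `X`: comparable to at least two elements of `X`, and incomparable to infinitely
many elements of `X`. -/
def Bad {P : Type} [PartialOrder P] (X : Set P) (y : P) : Prop :=
  (∃ a ∈ X, ∃ b ∈ X, a ≠ b ∧ (y ≤ a ∨ a ≤ y) ∧ (y ≤ b ∨ b ≤ y)) ∧
    {x | x ∈ X ∧ ¬ (y ≤ x ∨ x ≤ y)}.Infinite

/-- The criterion. -/
theorem criterion (P : Type) [PartialOrder P] (X : Set P) (hX : X.Infinite)
    (hA : IsAntichain (· ≤ ·) X) (hB : ∀ m ∈ X, {y | (y ≤ m ∨ m ≤ y) ∧ Bad X y}.Finite) :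
    Good P := by
  obtain ⟨H, hHX, hH, h1, -⟩ := core (fun y m : P => (y ≤ m ∨ m ≤ y) ∧ Bad X y) X hX hB
    (∅ : Set P) Set.finite_empty (fun _ _ => True)
  refine ⟨H, hH, hA.subset hHX, fun x => ?_⟩
  apply few_of
  rintro a ⟨ha, hxa⟩ b ⟨hb, hxb⟩ hab
  by_cases hbad : Bad X x
  · refine (h1 x a ha b hb hab ⟨hxa, hbad⟩ ⟨hxb, hbad⟩).mono ?_
    rintro h ⟨hh, h2⟩
    exact ⟨hh, h2.1⟩
  · have hfin : {y | y ∈ X ∧ ¬ (x ≤ y ∨ y ≤ x)}.Finite := by
      by_contra hcon
      exact hbad ⟨⟨a, hHX ha, b, hHX hb, hab, hxa, hxb⟩, hcon⟩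
    have h2 : (H \ {y | y ∈ X ∧ ¬ (x ≤ y ∨ y ≤ x)}).Infinite := hH.sdiff hfin
    refine h2.mono ?_
    rintro h ⟨hh, h3⟩
    refine ⟨hh, ?_⟩
    by_contra h4
    exact h3 ⟨hHX hh, h4⟩

section

variable {P : Type} [PartialOrder P]

theorem wf_lt (hP : FinLen P) : WellFounded (fun a b : P => a < b) := by
  obtain ⟨n, hn⟩ := hP
  rw [WellFounded.wellFounded_iff_has_min]
  by_contra hcon
  push Not at hcon
  obtain ⟨S, ⟨s0, hs0⟩, hS⟩ := hcon
  have : ∀ x : S, ∃ y : S, (y : P) < x := fun x => by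
    obtain ⟨y, hy, hyx⟩ := hS x x.2
    exact ⟨⟨y, hy⟩, hyx⟩
  choose g hg using this
  set f : ℕ → S := fun k => g^[k] ⟨s0, hs0⟩ with hf
  have hanti : StrictAnti fun k => (f k : P) := by
    apply strictAnti_nat_of_succ_lt
    intro k
    simp only [hf, Function.iterate_succ_apply']
    exact hg _
  have hchain : IsChain (· ≤ ·) (Set.range fun k => (f k : P)) := by
    rintro _ ⟨i, rfl⟩ _ ⟨j, rfl⟩ _
    rcases le_total i j with h | h
    · exact Or.inr (hanti.antitone h)
    · exact Or.inl (hanti.antitone h)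
  have h1 := hn _ hchain
  have h2 : (Set.range fun k => (f k : P)).Infinite :=
    Set.infinite_range_of_injective hanti.injective
  rw [h2.encard_eq] at h1
  simp at h1

theorem wf_gt (hP : FinLen P) : WellFounded (fun a b : P => b < a) := by
  obtain ⟨n, hn⟩ := hP
  rw [WellFounded.wellFounded_iff_has_min]
  by_contra hcon
  push Not at hcon
  obtain ⟨S, ⟨s0, hs0⟩, hS⟩ := hcon
  have : ∀ x : S, ∃ y : S, (x : P) < y := fun x => by
    obtain ⟨y, hy, hyx⟩ := hS x x.2
    exact ⟨⟨y, hy⟩, hyx⟩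
  choose g hg using this
  set f : ℕ → S := fun k => g^[k] ⟨s0, hs0⟩ with hf
  have hmono : StrictMono fun k => (f k : P) := by
    apply strictMono_nat_of_lt_succ
    intro k
    simp only [hf, Function.iterate_succ_apply']
    exact hg _
  have hchain : IsChain (· ≤ ·) (Set.range fun k => (f k : P)) := by
    rintro _ ⟨i, rfl⟩ _ ⟨j, rfl⟩ _
    rcases le_total i j with h | h
    · exact Or.inl (hmono.monotone h)
    · exact Or.inr (hmono.monotone h)
  have h1 := hn _ hchain
  have h2 : (Set.range fun k => (f k : P)).Infinite :=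
    Set.infinite_range_of_injective hmono.injective
  rw [h2.encard_eq] at h1
  simp at h1

/-- In an infinite set of elements with finite up-sets there are infinitely many minimal ones. -/
theorem min_infinite (hP : FinLen P) (S : Set P) (hS : S.Infinite)
    (hup : ∀ x ∈ S, (Set.Ici x).Finite) :
    {m | m ∈ S ∧ ∀ x ∈ S, ¬ x < m}.Infinite := by
  intro hfin
  apply hS
  have h1 : (⋃ m ∈ {m | m ∈ S ∧ ∀ x ∈ S, ¬ x < m}, Set.Ici m).Finite :=
    hfin.biUnion fun m hm => hup m hm.1
  refine h1.subset fun x hx => ?_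
  obtain ⟨m, ⟨hm1, hm2⟩, hm3⟩ := (wf_lt hP).has_min {y | y ∈ S ∧ y ≤ x} ⟨x, hx, le_rfl⟩
  refine Set.mem_biUnion (x := m) ⟨hm1, fun z hz hzm => ?_⟩ hm2
  exact hm3 z ⟨hz, hzm.le.trans hm2⟩ hzm

/-- There is a point with infinitely many covers with finite up-sets, unless all up-sets are
finite. -/
theorem exists_top (hP : FinLen P) (hne : ∃ x : P, (Set.Ici x).Infinite) :
    ∃ k : P, {x | k ⋖ x ∧ (Set.Ici x).Finite}.Infinite ∧ ∀ x, k < x → (Set.Ici x).Finite := by
  obtain ⟨k, hk, hk2⟩ := (wf_gt hP).has_min {x : P | (Set.Ici x).Infinite} hne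
  have hk3 : ∀ x, k < x → (Set.Ici x).Finite := by
    intro x hx
    by_contra h
    exact hk2 x h hx
  have hIoi : (Set.Ioi k).Infinite := by
    intro h
    apply hk
    have : Set.Ici k = insert k (Set.Ioi k) := by
      rw [Set.Ioi_insert]
    rw [this]
    exact h.insert k
  have h1 := min_infinite hP (Set.Ioi k) hIoi fun x hx => hk3 x hx
  refine ⟨k, h1.mono ?_, hk3⟩
  rintro x ⟨hx1, hx2⟩
  exact ⟨⟨hx1, fun z hz1 hz2 => hx2 z hz1 hz2⟩, hk3 x hx1⟩

/-- Infinitely many elements of finite degree. -/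
theorem good_of_degree (hP : FinLen P)
    (hD : {x : P | (Set.Ici x).Finite ∧ (Set.Iic x).Finite}.Infinite) : Good P := by
  set D := {x : P | (Set.Ici x).Finite ∧ (Set.Iic x).Finite} with hDdef
  have h1 := min_infinite hP D hD fun x hx => hx.1
  refine criterion P {m | m ∈ D ∧ ∀ x ∈ D, ¬ x < m} h1 ?_ ?_
  · rintro a ha b hb hab hle
    exact hb.2 a ha.1 (lt_of_le_of_ne hle hab)
  · rintro m ⟨hm, -⟩
    refine (hm.2.union hm.1).subset ?_
    rintro y ⟨hy, -⟩
    rcases hy with h | h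
    · exact Or.inl h
    · exact Or.inr h

theorem good_of_all (hP : FinLen P) (hinf : Infinite P) (hall : ∀ x : P, (Set.Ici x).Finite) :
    Good P := by
  have h1 := min_infinite hP (Set.univ : Set P) Set.infinite_univ fun x _ => hall x
  refine criterion P {m | m ∈ (Set.univ : Set P) ∧ ∀ x ∈ (Set.univ : Set P), ¬ x < m} h1 ?_ ?_
  · rintro a - b hb hab hle
    exact hb.2 a trivial (lt_of_le_of_ne hle hab)
  · rintro m ⟨-, hm⟩
    refine (hall m).subset ?_
    rintro y ⟨hy, -⟩
    rcases hy with h | h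
    · have : y = m := by
        by_contra hne
        exact hm y trivial (lt_of_le_of_ne h hne)
      exact this ▸ le_rfl
    · exact h

/-- The general criterion at a point with infinitely many covers. -/
theorem good_of_cover (hP : FinLen P) (hinf : Infinite P)
    (hC : ∀ k y a b c : P, k ⋖ a → k ⋖ b → k ⋖ c → a ≠ b → y ≤ a → y ≤ b → ¬ y ≤ k → y ≤ c) :
    Good P := by
  by_cases hne : ∃ x : P, (Set.Ici x).Infinite
  · obtain ⟨k, hk, -⟩ := exists_top hP hne
    have hanti : IsAntichain (· ≤ ·) {x | k ⋖ x ∧ (Set.Ici x).Finite} := by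
      rintro a ha b hb hab hle
      exact hb.1.2 ha.1.1 (lt_of_le_of_ne hle hab)
    refine criterion P _ hk hanti ?_
    rintro m ⟨hm1, hm2⟩
    refine hm2.subset ?_
    rintro y ⟨hy, ⟨a, ha, b, hb, hab, hya, hyb⟩, hinf'⟩
    rcases hy with h | h
    · exfalso
      by_cases hym : y = m
      · subst hym
        -- y = m is comparable only to itself
        have e1 : a = y := by
          by_contra hne
          rcases hya with h3 | h3
          · exact hanti ⟨hm1, hm2⟩ ha (Ne.symm hne) h3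
          · exact hanti ha ⟨hm1, hm2⟩ hne h3
        have e2 : b = y := by
          by_contra hne
          rcases hyb with h3 | h3
          · exact hanti ⟨hm1, hm2⟩ hb (Ne.symm hne) h3
          · exact hanti hb ⟨hm1, hm2⟩ hne h3
        exact hab (e1.trans e2.symm)
      · have hlt : y < m := lt_of_le_of_ne h hym
        have below : ∀ c, k ⋖ c → (y ≤ c ∨ c ≤ y) → y ≤ c := by
          intro c hc hyc
          rcases hyc with h3 | h3
          · exact h3
          · exact absurd (h3.trans_lt hlt) (fun h4 => hm1.2 hc.1 h4)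
        have ha' := below a ha.1 hya
        have hb' := below b hb.1 hyb
        obtain ⟨c, hc1, hc2⟩ := hinf'.nonempty
        apply hc2
        left
        by_cases hyk : y ≤ k
        · exact hyk.trans hc1.1.1.le
        · exact hC k y a b c ha.1 hb.1 hc1.1 hab ha' hb' hyk
    · exact h
  · push Not at hne
    exact good_of_all hP hinf hne

/-- Interpolation. -/
theorem good_of_interpolation (hP : FinLen P) (hinf : Infinite P)
    (hI : ∀ a b c d : P, a ≤ c → a ≤ d → b ≤ c → b ≤ d → ∃ e, a ≤ e ∧ b ≤ e ∧ e ≤ c ∧ e ≤ d) :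
    Good P := by
  refine good_of_cover hP hinf ?_
  intro k y a b c ha hb _ hab hya hyb hyk
  exfalso
  obtain ⟨e, h1, h2, h3, h4⟩ := hI k y a b ha.1.le hb.1.le hya hyb
  by_cases hek : e = k
  · exact hyk (hek ▸ h2)
  · have hke : k < e := lt_of_le_of_ne h1 (Ne.symm hek)
    have e1 : e = a := by
      by_contra hne
      exact ha.2 hke (lt_of_le_of_ne h3 hne)
    have e2 : e = b := by
      by_contra hne
      exact hb.2 hke (lt_of_le_of_ne h4 hne)
    exact hab (e1.symm.trans e2)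

/-- N-free posets. -/
theorem good_of_nfree (hP : FinLen P) (hinf : Infinite P)
    (hN : ∀ a b c d : P, a < c → b < c → b < d →
      a ≤ b ∨ b ≤ a ∨ a ≤ d ∨ d ≤ a ∨ c ≤ d ∨ d ≤ c) :
    Good P := by
  refine good_of_cover hP hinf ?_
  intro k y a b c ha hb hc hab hya hyb hyk
  have hya' : y < a := by
    refine lt_of_le_of_ne hya ?_
    rintro rfl
    exact hb.2 ha.1 (lt_of_le_of_ne hyb hab)
  rcases hN y k a c hya' ha.1 hc.1 with h | h | h | h | h | h
  · exact absurd h hyk
  · exfalso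
    rcases h.eq_or_lt with h1 | h1
    · exact hyk h1.symm.le
    · exact ha.2 h1 hya'
  · exact h
  · exact absurd (h.trans_lt hya') (fun h1 => ha.2 hc.1 h1)
  · exact hya.trans h
  · by_cases hac : c = a
    · exact hac ▸ hya
    · exact absurd (lt_of_le_of_ne h hac) (fun h1 => ha.2 hc.1 h1)

/-- The one-sided version, for all posets of finite length. -/
theorem one_sided (hP : FinLen P) (hinf : Infinite P) :
    ∃ H : Set P, H.Infinite ∧ IsAntichain (· ≤ ·) H ∧ (∀ h ∈ H, (Set.Ici h).Finite) ∧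
      (∀ x, Few {h | h ∈ H ∧ h ≤ x}) ∧
      ∀ x : P, (Set.Ici x).Finite → Few {h | h ∈ H ∧ (x ≤ h ∨ h ≤ x)} := by
  have hE : {x : P | (Set.Ici x).Finite}.Infinite := by
    by_cases hne : ∃ x : P, (Set.Ici x).Infinite
    · obtain ⟨k, hk, -⟩ := exists_top hP hne
      exact hk.mono fun x hx => hx.2
    · push Not at hne
      have : {x : P | (Set.Ici x).Finite} = Set.univ := by
        ext x
        simp only [Set.mem_setOf_eq, Set.mem_univ, iff_true]
        exact hne x
      rw [this]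
      exact Set.infinite_univ
  have h1 := min_infinite hP _ hE fun x hx => hx
  obtain ⟨H, hHX, hH, h2, -⟩ := core (fun y m : P => m ≤ y) _ h1
    (fun m hm => hm.1) (∅ : Set P) Set.finite_empty (fun _ _ => True)
  have hfew : ∀ x, Few {h | h ∈ H ∧ h ≤ x} := by
    intro x
    apply few_of
    rintro a ⟨ha, hxa⟩ b ⟨hb, hxb⟩ hab
    exact h2 x a ha b hb hab hxa hxb
  refine ⟨H, hH, ?_, fun h hh => (hHX hh).1, hfew, ?_⟩
  · rintro a ha b hb hab hle
    exact (hHX hb).2 a (hHX ha).1 (lt_of_le_of_ne hle hab)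
  · intro x hx
    have : {h | h ∈ H ∧ (x ≤ h ∨ h ≤ x)} = {h | h ∈ H ∧ h ≤ x} := by
      ext h
      simp only [Set.mem_setOf_eq]
      constructor
      · rintro ⟨hh, h3 | h3⟩
        · refine ⟨hh, ?_⟩
          by_contra hcon
          have hne : x ≠ h := by
            rintro rfl
            exact hcon le_rfl
          exact (hHX hh).2 x hx (lt_of_le_of_ne h3 hne)
        · exact ⟨hh, h3⟩
      · rintro ⟨hh, h3⟩
        exact ⟨hh, Or.inr h3⟩
    rw [this]
    exact hfew x

end

end Pool.Agent.K6.H30.RS
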